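import Pool.Agent.PMN.Main

/-!
# Partial PMMS allocations with at most `n - 2` unallocated items

`n ≥ 2` agents with binary-marginal MMS-feasible valuations always have a partial allocation that
is PMMS and leaves at most `n - 2` items unallocated; if it is not complete it is envy-free.
-/

namespace Pool.Agent.Results.MP_a38173_lc.FewUnallocated

open Finset Pool.Agent.Helper81.PMMS Pool.Agent.PMN

/-- For every number `n ≥ 2` of agents with binary-marginal MMS-feasible valuations there are
pairwise disjoint bundles that satisfy all PMMS inequalities and leave at most `n - 2` items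
unallocated; moreover all items are allocated or the bundles are envy-free. -/
theorem result (n : ℕ) (hn : 2 ≤ n) (M : Type) [Fintype M] [DecidableEq M]
    (v : Fin n → Finset M → ℝ) (hb : ∀ i, BinaryMarginal (v i)) (hm : ∀ i, MMSFeasible (v i)) :
    ∃ X : Fin n → Finset M, (∀ i j, i ≠ j → Disjoint (X i) (X j)) ∧
      (∀ i j, i ≠ j → twoWayShare (v i) (X i ∪ X j) ≤ v i (X i)) ∧
      (univ.filter fun g : M => ∀ i, g ∉ X i).card ≤ n - 2 ∧
      (IsPMMS v X ∨ ∀ i j, v i (X j) ≤ v i (X i)) := by
  choose w hw1 hw2 using fun i => exists_nat (hb i) (hm i)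
  have : Nonempty (Fin n) := ⟨⟨0, by omega⟩⟩
  have hset : ∀ X : Fin n → Finset M,
      (univ.filter fun g : M => ∀ i, g ∉ X i) = univ \ univ.biUnion X := by
    intro X
    ext g
    simp
  rcases main_nat (N := Fin n) hw1 with ⟨X, h1, h2, h3⟩ | ⟨X, h1, h2, h3⟩
  · refine ⟨X, h1, fun i j hij => share_le (hw2 i) ((hw1 i).ne_of_le (h1 i j hij) (h2 i j)), ?_,
      Or.inr fun i j => ?_⟩
    · rw [hset]
      rw [Fintype.card_fin] at h3
      omega
    · rw [hw2, hw2]
      exact_mod_cast h2 i j
  · refine ⟨X, h1, fun i j hij => share_le (hw2 i) (h3 i j hij), ?_,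
      Or.inl ⟨⟨h1, h2⟩, fun i j hij => share_le (hw2 i) (h3 i j hij)⟩⟩
    have : (univ.filter fun g : M => ∀ i, g ∉ X i) = ∅ := by
      rw [filter_eq_empty_iff]
      intro g _ h
      obtain ⟨i, hi⟩ := h2 g
      exact h i hi
    rw [this, card_empty]
    omega

end Pool.Agent.Results.MP_a38173_lc.FewUnallocated
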