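import Pool.Agent.Helper81.PMMS.Convert
import Pool.Agent.Helper81.PMMS.Conn

/-!
# PMMS allocations exist for three agents

Three agents with binary-marginal MMS-feasible valuations always have a PMMS allocation.
-/

namespace Pool.Agent.Results.MP_a38173_lc.ThreeAgents

open Pool.Agent.Helper81.PMMS

/-- Every instance with three agents whose valuations are binary-marginal and MMS-feasible has
a PMMS allocation of all items. -/
theorem result (M : Type) [Fintype M] [DecidableEq M] (v : Fin 3 → Finset M → ℝ)
    (hb : ∀ i, BinaryMarginal (v i)) (hm : ∀ i, MMSFeasible (v i)) :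
    ∃ X : Fin 3 → Finset M, IsPMMS v X := by
  choose w hw1 hw2 using fun i => exists_nat (hb i) (hm i)
  obtain ⟨X, Y, Z, hP, h1, h2, h3, h4, h5, h6⟩ := fair (hw1 0) (hw1 1) (hw1 2)
  refine ⟨![X, Y, Z], ⟨?_, ?_⟩, ?_⟩
  · intro i j hij
    fin_cases i <;> fin_cases j
    · exact absurd rfl hij
    · exact hP.xy
    · exact hP.xz
    · exact hP.xy.symm
    · exact absurd rfl hij
    · exact hP.yz
    · exact hP.xz.symm
    · exact hP.yz.symm
    · exact absurd rfl hij
  · intro g
    rcases hP.cov g with h | h | h
    · exact ⟨0, h⟩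
    · exact ⟨1, h⟩
    · exact ⟨2, h⟩
  · intro i j hij
    fin_cases i <;> fin_cases j
    · exact absurd rfl hij
    · exact share_le (hw2 0) h1
    · exact share_le (hw2 0) h2
    · exact share_le (hw2 1) h3
    · exact absurd rfl hij
    · exact share_le (hw2 1) h4
    · exact share_le (hw2 2) h5
    · exact share_le (hw2 2) h6
    · exact absurd rfl hij

end Pool.Agent.Results.MP_a38173_lc.ThreeAgents
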